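import Pool.Agent.H15.FOS.Targets
import Pool.Agent.H27.LV.Curve

/-!
# MP_70ba79_ag, THEOREM S, chapter 12, row GNM: the constant term of the equation
-/

set_option autoImplicit false
open MvPolynomial SC Pool.Agent.H27.LV
open Pool.Agent.H84.SM (dp cr dt)
open Pool.Agent.H92.SF Pool.Agent.H3.SF Pool.Agent.H15.FOS

namespace Pool.Agent.H54.FOS

section

variable {k K : Type} [Field k] [Field K] [Algebra k K] (v : DV k K)

theorem geP {t : ℤ} {x : K} (h : ge v t x) (n : ℕ) : ge v (n * t) (x ^ n) := by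
  induction n with
  | zero => simpa using ge_one v
  | succ n ih =>
    rw [pow_succ]
    have h1 := ih.mul h
    refine h1.mono ?_
    push_cast
    linarith

theorem ge_pole (x : Fin 3 → K) (i : Fin 3) : ge v (-(poleOrder v x : ℤ)) (x i) := by
  right
  have h : (-(v.ord (x i))).toNat ≤ poleOrder v x := by
    unfold poleOrder
    exact Finset.le_sup (f := fun i => (-(v.ord (x i))).toNat) (Finset.mem_univ i)
  omega

theorem ge_form (x : Fin 3 → K) (Q : MvPolynomial (Fin 3) k) (d : ℕ) (hQ : Q.IsHomogeneous d) :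
    ge v (-(d * (poleOrder v x : ℤ))) (aeval x Q) := by
  rw [aeval_def, eval₂_eq']
  refine ge_sum v _ _ _ fun m hm => ?_
  rw [mem_support_iff] at hm
  have h1 : m 0 + m 1 + m 2 = d := by
    have h2 := hQ hm
    rw [Finsupp.weight_apply, Finsupp.sum_fintype _ _ (by simp)] at h2
    simpa [Fin.sum_univ_three] using h2
  rw [Fin.prod_univ_three]
  have h3 := (ge_const v (coeff m Q)).mul
    (((geP v (ge_pole v x 0) (m 0)).mul (geP v (ge_pole v x 1) (m 1))).mul
      (geP v (ge_pole v x 2) (m 2)))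
  refine h3.mono ?_
  rw [← h1]
  push_cast
  linarith

end

theorem fos_GNM : T_GNM := by
  intro k K _ _ _ v x g m N q hq h0
  obtain ⟨n, rfl⟩ : ∃ n, N = n + 1 := ⟨N - 1, by have := hq.pos; omega⟩
  obtain ⟨p, hp⟩ : ∃ p : ℤ, p = (poleOrder v x : ℤ) := ⟨_, rfl⟩
  obtain ⟨M, hM⟩ : ∃ M : ℤ, M = m * p := ⟨_, rfl⟩
  have hform : ∀ i, i < n + 1 → ge v (-(((n + 1 - i : ℕ) : ℤ) * M)) (aeval x (q i)) := by
    intro i hi
    have h1 := ge_form v x (q i) _ (hq.hom i hi)
    refine h1.mono ?_
    rw [hM, hp]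
    push_cast
    linarith
  have heq : g ^ (n + 1) + ∑ i ∈ Finset.range (n + 1), aeval x (q i) * g ^ i = 0 := hq.eq
  rw [Finset.sum_range_succ'] at heq
  have heq2 : aeval x (q 0) = -(g * (g ^ n + ∑ i ∈ Finset.range n, aeval x (q (i + 1)) * g ^ i)) := by
    rw [mul_add, Finset.mul_sum]
    have e1 : ∑ i ∈ Finset.range n, g * (aeval x (q (i + 1)) * g ^ i) =
        ∑ i ∈ Finset.range n, aeval x (q (i + 1)) * g ^ (i + 1) :=
      Finset.sum_congr rfl fun i _ => by ring
    rw [e1]
    linear_combination heq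
  have hg : g ≠ 0 := by
    intro h
    rw [heq2, h, zero_mul, neg_zero] at h0
    exact h0 rfl
  have hord : -M ≤ v.ord g := by
    by_contra hcon
    push Not at hcon
    have h1 : ge v ((n + 1 : ℕ) * v.ord g + 1)
        (∑ i ∈ Finset.range (n + 1), aeval x (q i) * g ^ i) := by
      refine ge_sum v _ _ _ fun i hi => ?_
      rw [Finset.mem_range] at hi
      have h2 := (hform i hi).mul (geP v (ge_of_ord v (x := g)) i)
      refine h2.mono ?_
      obtain ⟨j, hj⟩ : ∃ j, n + 1 = i + (j + 1) := ⟨n - i, by omega⟩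
      have hj2 : n + 1 - i = j + 1 := by omega
      rw [hj2]
      have hj3 : ((n + 1 : ℕ) : ℤ) = i + (j + 1) := by exact_mod_cast hj
      rw [hj3]
      push_cast
      have h3 : ((j : ℤ) + 1) * (v.ord g + 1) ≤ ((j : ℤ) + 1) * (-M) :=
        mul_le_mul_of_nonneg_left (by omega) (by positivity)
      nlinarith
    rw [Finset.sum_range_succ'] at h1
    have h4 : ∑ i ∈ Finset.range n, aeval x (q (i + 1)) * g ^ (i + 1) + aeval x (q 0) * g ^ 0 =
        -g ^ (n + 1) := by linear_combination heq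
    rw [h4] at h1
    rcases h1 with h1 | h1
    · exact pow_ne_zero _ hg (neg_eq_zero.mp h1)
    · rw [v.ord_neg, v.ord_pow] at h1
      omega
  have hh : ge v (-(n * M)) (g ^ n + ∑ i ∈ Finset.range n, aeval x (q (i + 1)) * g ^ i) := by
    refine ge.add ?_ (ge_sum v _ _ _ fun i hi => ?_)
    · refine (geP v (ge_of_ord v (x := g)) n).mono ?_
      have := mul_le_mul_of_nonneg_left hord (Nat.cast_nonneg (α := ℤ) n)
      linarith
    · rw [Finset.mem_range] at hi
      have h2 := (hform (i + 1) (by omega)).mul (geP v (ge_of_ord v (x := g)) i)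
      refine h2.mono ?_
      obtain ⟨j, rfl⟩ : ∃ j, n = i + j := ⟨n - i, by omega⟩
      have hj2 : i + j + 1 - (i + 1) = j := by omega
      rw [hj2]
      push_cast
      have := mul_le_mul_of_nonneg_left hord (Nat.cast_nonneg (α := ℤ) i)
      linarith
  have hne : g ^ n + ∑ i ∈ Finset.range n, aeval x (q (i + 1)) * g ^ i ≠ 0 := by
    intro h
    rw [heq2, h, mul_zero, neg_zero] at h0
    exact h0 rfl
  have hfin := hh.resolve_left hne
  rw [heq2, v.ord_neg, v.ord_mul g _ hg hne, ← hp]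
  have e2 : ((((n + 1) * m : ℕ) : ℤ)) * p = (n + 1) * M := by
    rw [hM]
    push_cast
    ring
  rw [e2, ← hM]
  linarith

end Pool.Agent.H54.FOS
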